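import Pool.Agent.H5.Tri.GlueFin

set_option autoImplicit false

open MeasureTheory

namespace Pool.Agent.Results.MP_76e945_co.LargeTriangles

/-- Q2: a Lebesgue measurable plane set of positive density at infinity contains congruent copies
of all large dilates of every non-degenerate triangle. -/
theorem result :
    ∀ E : Set (EuclideanSpace ℝ (Fin 2)), NullMeasurableSet E volume →
      (∃ c : ℝ, 0 < c ∧ ∀ R : ℝ, ∃ r : ℝ, R ≤ r ∧
        ENNReal.ofReal (c * r ^ 2) ≤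
          volume (E ∩ Metric.closedBall (0 : EuclideanSpace ℝ (Fin 2)) r)) →
      ∀ x : Fin 3 → EuclideanSpace ℝ (Fin 2), ¬ Collinear ℝ (Set.range x) →
      ∃ r₀ : ℝ, 0 < r₀ ∧ ∀ r : ℝ, r₀ ≤ r →
        ∃ φ : EuclideanSpace ℝ (Fin 2) ≃ᵢ EuclideanSpace ℝ (Fin 2), ∀ i, φ (r • x i) ∈ E := by
  intro E hE hd x hx
  obtain ⟨E', hsub, hm, hae⟩ := hE.exists_measurable_subset_ae_eq
  obtain ⟨c, hc, hc'⟩ := hd
  have hd' : ∃ c : ℝ, 0 < c ∧ ∀ R : ℝ, ∃ r : ℝ, R ≤ r ∧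
      ENNReal.ofReal (c * r ^ 2) ≤
        volume (E' ∩ Metric.closedBall (0 : EuclideanSpace ℝ (Fin 2)) r) := by
    refine ⟨c, hc, fun R => ?_⟩
    obtain ⟨r, hr, h⟩ := hc' R
    refine ⟨r, hr, h.trans_eq ?_⟩
    exact measure_congr (hae.symm.inter (ae_eq_refl _))
  obtain ⟨r₀, h0, h⟩ := Pool.Agent.H24.Tri.Fin_Q2 Pool.Agent.H24.Tri.Fin_hyps E' hm hd' x hx
  refine ⟨r₀, h0, fun r hr => ?_⟩
  obtain ⟨φ, hφ⟩ := h r hr
  exact ⟨φ, fun i => hsub (hφ i)⟩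

end Pool.Agent.Results.MP_76e945_co.LargeTriangles
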